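import Mathlib
import Pool.Agent.W42.RG.Defs

set_option autoImplicit false
set_option linter.unusedSectionVars false
set_option linter.unusedVariables false

/-!
The stabiliser of a measurable set under a measure preserving action of a Lie group is a Lie
subalgebra.
-/

namespace Pool.Agent.W334.LX

open Finset Filter Topology MeasureTheory Pool.Agent.W42.RN Pool.Agent.W42.RL Pool.Agent.W42.RG

theorem t_STA (h : S_DER) : S_STA := by
  intro X _ 𝔤 _ _ _ _ _ _ _ μ _ E hE B hB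
  -- the stabiliser as a subspace
  let S : Submodule ℝ 𝔤 :=
    { carrier := {Y | ∀ s : ℝ, E (s • Y) ⁻¹' B =ᵐ[μ] B}
      zero_mem' := by
        intro s
        rw [smul_zero]
        exact hE.zero B hB
      add_mem' := by
        intro Y Z hY hZ s
        rw [smul_add]
        apply stab_add hE hB
        · intro t
          rw [smul_smul]
          exact hY _
        · intro t
          rw [smul_smul]
          exact hZ _
      smul_mem' := by
        intro c Y hY s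
        rw [smul_smul]
        exact hY _ }
  have hS : ∀ Y, Y ∈ S ↔ ∀ s : ℝ, E (s • Y) ⁻¹' B =ᵐ[μ] B := fun Y => Iff.rfl
  have hbr : ∀ Y Z : 𝔤, Y ∈ S → Z ∈ S → ⁅Y, Z⁆ ∈ S := by
    intro Y Z hY hZ
    have h1 := h 𝔤 (LieAlgebra.ad ℝ 𝔤 Y) S Z 1 one_pos ?_
    · rwa [LieAlgebra.ad_apply] at h1
    intro s _
    obtain ⟨Z', hZ'⟩ := exists_exp (s • LieAlgebra.ad ℝ 𝔤 Y) Z
    refine ⟨Z', ?_, hZ'⟩
    rw [hS]
    intro t
    have h2 : HasSum (fun l : ℕ => ((l.factorial : ℝ)⁻¹) •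
        ((LieAlgebra.ad ℝ 𝔤 (s • Y)) ^ l) (t • Z)) (t • Z') := by
      have h3 := hZ'.const_smul t
      refine h3.congr_fun ?_
      intro l
      rw [map_smul, map_smul, smul_comm]
    have h4 : E (t • Z) ⁻¹' (E (s • Y) ⁻¹' B) =ᵐ[μ] E (s • Y) ⁻¹' (E (t • Z') ⁻¹' B) :=
      hE.conj (s • Y) (t • Z) (t • Z') h2 B hB
    have h5 : E (s • Y) ⁻¹' (E (t • Z') ⁻¹' B) =ᵐ[μ] B :=
      h4.symm.trans ((pre_ae (hE.mp _) (hY s)).trans (hZ t))
    have hA : MeasurableSet (E (t • Z') ⁻¹' B) := (hE.mp _).measurable hB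
    have h6 : E ((-s) • Y) ⁻¹' (E (s • Y) ⁻¹' (E (t • Z') ⁻¹' B)) =ᵐ[μ] E (t • Z') ⁻¹' B := by
      have h7 := hE.line Y s (-s) (E (t • Z') ⁻¹' B) hA
      rw [add_neg_cancel, zero_smul] at h7
      exact h7.symm.trans (hE.zero _ hA)
    exact h6.symm.trans ((pre_ae (hE.mp _) h5).trans (hY (-s)))
  exact ⟨{ S with lie_mem' := fun {Y Z} hY hZ => hbr Y Z hY hZ }, fun Y => Iff.rfl⟩

end Pool.Agent.W334.LX
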